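import Pool.Agent.H.MP_49a0e9_an.C

namespace Pool.Agent.Results.MP_49a0e9_an.No

open MeasureTheory

universe u

def RNP (V : Type u) [NormedAddCommGroup V] [NormedSpace ℝ V] : Prop :=
  ∀ (f : ℝ → V) (K : NNReal), LipschitzWith K f → ∀ᵐ t : ℝ, DifferentiableAt ℝ f t

def Emb (Y : Type) [MetricSpace Y] : Prop :=
  ∃ (V : Type u) (_ : NormedAddCommGroup V) (_ : NormedSpace ℝ V),
    CompleteSpace V ∧ RNP V ∧ ∃ (φ : Y → V) (c C : ℝ), 0 < c ∧ c ≤ C ∧
      ∀ x y, c * dist x y ≤ ‖φ x - φ y‖ ∧ ‖φ x - φ y‖ ≤ C * dist x y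

theorem result : ∃ (X : Type) (_ : MetricSpace X), CompleteSpace X ∧
    (∀ p : X, ∃ r : ℝ, 0 < r ∧ Emb.{u} (Metric.closedBall p r)) ∧ ¬ Emb.{u} X := by
  open Pool.Agent.H.MP_49a0e9_an in
  refine ⟨X, inferInstance, inferInstance, fun p => ⟨1 / 2, by norm_num, ?_⟩, ?_⟩
  · refine ⟨ULift.{u} (ℝ × ℝ), inferInstance, inferInstance, inferInstance,
      fun f K hf => hf.ae_differentiableAt, fun x => ULift.up (loc x.1), 1 / 4, 2 / q p.n,
      by norm_num, ?_, fun x y => ?_⟩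
    · rw [le_div_iff₀ (q_pos _)]
      have := q_le p.n
      linarith
    · have hx : x.1.n = p.n := n_eq _ _ ((Metric.mem_closedBall.1 x.2).trans_lt (by norm_num))
      have hy : y.1.n = p.n := n_eq _ _ ((Metric.mem_closedBall.1 y.2).trans_lt (by norm_num))
      have := loc_bd x.1 y.1 (hx.trans hy.symm)
      rw [hx] at this
      exact this
  · rintro ⟨V, _, _, _, hV, φ, c, C, hc, hcC, h⟩
    exact no_emb hV φ hc hcC h

end Pool.Agent.Results.MP_49a0e9_an.No
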